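import Pool.Agent.Helper188.NCM.Cartan
import Pool.Agent.Helper188.NCM.AP_helper21

set_option autoImplicit false

open Filter Topology

namespace Pool.Agent.Results.MP_7a8f48_an.CartanFixing

/-- Möbius disjointness of a unital `*`-endomorphism, in norm and for every bounded functional. -/
def MobiusDisjoint {U : Type} [CStarAlgebra U] (α : U →⋆ₐ[ℂ] U) : Prop :=
  ∀ x : U,
    Tendsto (fun N : ℕ => (1 / (N : ℝ)) *
      ‖∑ n ∈ Finset.Icc 1 N, ((ArithmeticFunction.moebius n : ℤ) : ℂ) • (α^[n]) x‖) atTop (𝓝 0) ∧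
    ∀ ρ : U →L[ℂ] ℂ, Tendsto (fun N : ℕ => (1 / (N : ℂ)) *
      ∑ n ∈ Finset.Icc 1 N, ((ArithmeticFunction.moebius n : ℤ) : ℂ) * ρ ((α^[n]) x)) atTop (𝓝 0)

/-- `x` normalizes the subalgebra `D`: `x D x* ⊆ D` and `x* D x ⊆ D` -/
def Normalizes {U : Type} [CStarAlgebra U] (D : StarSubalgebra ℂ U) (x : U) : Prop :=
  ∀ d ∈ D, x * d * star x ∈ D ∧ star x * d * x ∈ D

/-- `y` lies in the relative commutant of `D` -/
def Commutes {U : Type} [CStarAlgebra U] (D : StarSubalgebra ℂ U) (y : U) : Prop :=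
  ∀ d ∈ D, y * d = d * y

open Pool.Agent.Helper188.NCM

theorem mobiusDisjoint_of {U : Type} [CStarAlgebra U] {α : U →⋆ₐ[ℂ] U} (h : ∀ x, PP α x) :
    MobiusDisjoint α := by
  intro x
  have h1 := (h x).tendsto
  refine ⟨h1, fun ρ => ?_⟩
  have h2 : Tendsto (fun N : ℕ => ‖ρ‖ * ((1 / (N : ℝ)) *
      ‖∑ n ∈ Finset.Icc 1 N, mob n • (α^[n]) x‖)) atTop (𝓝 0) := by
    simpa using h1.const_mul ‖ρ‖
  refine squeeze_zero_norm (fun N => ?_) h2
  have e : ∑ n ∈ Finset.Icc 1 N, ((ArithmeticFunction.moebius n : ℤ) : ℂ) * ρ ((α^[n]) x)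
      = ρ (∑ n ∈ Finset.Icc 1 N, mob n • (α^[n]) x) := by
    rw [map_sum]
    exact Finset.sum_congr rfl fun n _ => by rw [map_smul, smul_eq_mul]; rfl
  rw [e, norm_mul, norm_div, norm_one, Complex.norm_natCast]
  calc 1 / (N : ℝ) * ‖ρ (∑ n ∈ Finset.Icc 1 N, mob n • (α^[n]) x)‖
      ≤ 1 / (N : ℝ) * (‖ρ‖ * ‖∑ n ∈ Finset.Icc 1 N, mob n • (α^[n]) x‖) := by
        gcongr
        exact ρ.le_opNorm _
    _ = _ := by ring

/-- **Endomorphisms with a power fixing a regular subalgebra.**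

(1) The criterion: if the `x` for which all `x* α^{mj}(x)` are fixed by `α^m` have dense span, then
`α` is Möbius disjoint, in norm.

(2) Commutative `D` (for example Cartan subalgebras): the normalizers of `D` have dense span and
`α^m` fixes the relative commutant of `D` (which contains `D`, and is `D` if `D` is maximal
commutative).

(3) Arbitrary `D` (for example crossed products `D ⋊ Γ`): the products of elements of `D` and
unitary normalizers of `D` have dense span, and `α^m` fixes `D` and its relative commutant. -/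
theorem result (U : Type) [CStarAlgebra U] (α : U →⋆ₐ[ℂ] U) (m : ℕ) (hm : 0 < m) :
    ((Submodule.span ℂ {x : U | ∀ j : ℕ,
      (α^[m]) (star x * (α^[m * j]) x) = star x * (α^[m * j]) x}).topologicalClosure = ⊤ →
      MobiusDisjoint α) ∧
    (∀ D : StarSubalgebra ℂ U, (∀ a ∈ D, ∀ b ∈ D, a * b = b * a) →
      (∀ y : U, Commutes D y → (α^[m]) y = y) →
      (Submodule.span ℂ {x : U | Normalizes D x}).topologicalClosure = ⊤ → MobiusDisjoint α) ∧
    (∀ D : StarSubalgebra ℂ U, (∀ d ∈ D, (α^[m]) d = d) →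
      (∀ y : U, Commutes D y → (α^[m]) y = y) →
      (Submodule.span ℂ {x : U | ∃ d ∈ D, ∃ u : unitary U, Normalizes D (u : U) ∧
        x = d * (u : U)}).topologicalClosure = ⊤ → MobiusDisjoint α) := by
  have hAP : APCase := AP21.taskAP
  exact ⟨fun h => mobiusDisjoint_of (main_crit hAP α m hm h),
    fun D hD hfix h => mobiusDisjoint_of (main_cartan hAP α D m hm hD hfix h),
    fun D hD hfix h => mobiusDisjoint_of (main_crossed hAP α D m hm hD hfix h)⟩

end Pool.Agent.Results.MP_7a8f48_an.CartanFixing
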