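import Pool.Agent.Helper188.NCM.Conv
import Pool.Agent.Helper188.NCM.QMAll
import Pool.Agent.Helper188.NCM.AP_helper21
import Pool.Agent.H183R3.NCMRat
import Pool.Agent.H201R3.NCM.Weyl
import Pool.Agent.H431R3.NCM.KBSZ

set_option autoImplicit false

open Filter Topology

namespace Pool.Agent.Results.MP_7a8f48_an.FreeGroupShifts

/-- Möbius disjointness of a unital `*`-endomorphism, in norm and for every bounded functional. -/
def MobiusDisjoint {U : Type} [CStarAlgebra U] (α : U →⋆ₐ[ℂ] U) : Prop :=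
  ∀ x : U,
    Tendsto (fun N : ℕ => (1 / (N : ℝ)) *
      ‖∑ n ∈ Finset.Icc 1 N, ((ArithmeticFunction.moebius n : ℤ) : ℂ) • (α^[n]) x‖) atTop (𝓝 0) ∧
    ∀ ρ : U →L[ℂ] ℂ, Tendsto (fun N : ℕ => (1 / (N : ℂ)) *
      ∑ n ∈ Finset.Icc 1 N, ((ArithmeticFunction.moebius n : ℤ) : ℂ) * ρ ((α^[n]) x)) atTop (𝓝 0)

/-- Haagerup's inequality (property of rapid decay) for a family of elements `π g`, with a length
function `ℓ`, a constant `C` and an exponent `k`. -/
def RapidDecay {U : Type} [CStarAlgebra U] {G : Type} (π : G → U) (ℓ : G → ℕ) (C : ℝ) (k : ℕ) :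
    Prop :=
  ∀ (f : G →₀ ℂ) (L : ℕ), (∀ g ∈ f.support, ℓ g ≤ L) →
    ‖∑ g ∈ f.support, f g • π g‖ ≤ C * ((L : ℝ) + 1) ^ k * Real.sqrt (∑ g ∈ f.support, ‖f g‖ ^ 2)

/-- The elements `π g` span a dense subspace. -/
def Spans {U : Type} [CStarAlgebra U] {G : Type} (π : G → U) : Prop :=
  (Submodule.span ℂ (Set.range π)).topologicalClosure = ⊤

/-- `α` maps `π g` to a unimodular multiple of `π (φ g)` -/
def Carries {U : Type} [CStarAlgebra U] {G : Type} (α : U →⋆ₐ[ℂ] U) (π : G → U) (φ : G → G) :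
    Prop :=
  ∀ g, ∃ c : ℂ, ‖c‖ = 1 ∧ α (π g) = c • π (φ g)

/-- `(ℓ(φ^n g) + 1)^k = o(n^{1/2})` along every orbit -/
def SlowOrbits {G : Type} (φ : G → G) (ℓ : G → ℕ) (k : ℕ) : Prop :=
  ∀ g, Tendsto (fun n : ℕ => ((ℓ (φ^[n] g) : ℝ) + 1) ^ k / Real.sqrt n) atTop (𝓝 0)

/-- `U`, with the unitary representation `π`, is a copy of the reduced C*-algebra of the free group
on `S`: for every finitely supported `f` the norm of `∑ f(g) π(g)` is the norm of the left
convolution by `f` on `ℓ²` of the free group, and the `π g` span `U`. -/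
def IsReducedFree (U : Type) [CStarAlgebra U] (S : Type) (π : FreeGroup S →* unitary U) : Prop :=
  (∀ f : FreeGroup S →₀ ℂ, IsLeast {C : ℝ | 0 ≤ C ∧ Pool.Agent.Helper188.NCM.ConvBound f C}
    ‖∑ g ∈ f.support, f g • (π g : U)‖) ∧
  Spans fun g => (π g : U)

open Pool.Agent.Helper188.NCM

theorem mobiusDisjoint_of {U : Type} [CStarAlgebra U] {α : U →⋆ₐ[ℂ] U} (h : ∀ x, PP α x) :
    MobiusDisjoint α := by
  intro x
  have h1 := (h x).tendsto
  refine ⟨h1, fun ρ => ?_⟩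
  have h2 : Tendsto (fun N : ℕ => ‖ρ‖ * ((1 / (N : ℝ)) *
      ‖∑ n ∈ Finset.Icc 1 N, mob n • (α^[n]) x‖)) atTop (𝓝 0) := by
    simpa using h1.const_mul ‖ρ‖
  refine squeeze_zero_norm (fun N => ?_) h2
  have e : ∑ n ∈ Finset.Icc 1 N, ((ArithmeticFunction.moebius n : ℤ) : ℂ) * ρ ((α^[n]) x)
      = ρ (∑ n ∈ Finset.Icc 1 N, mob n • (α^[n]) x) := by
    rw [map_sum]
    exact Finset.sum_congr rfl fun n _ => by rw [map_smul, smul_eq_mul]; rfl
  rw [e, norm_mul, norm_div, norm_one, Complex.norm_natCast]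
  calc 1 / (N : ℝ) * ‖ρ (∑ n ∈ Finset.Icc 1 N, mob n • (α^[n]) x)‖
      ≤ 1 / (N : ℝ) * (‖ρ‖ * ‖∑ n ∈ Finset.Icc 1 N, mob n • (α^[n]) x‖) := by
        gcongr
        exact ρ.le_opNorm _
    _ = _ := by ring

/-- **Möbius disjointness of shifts and permutations on reduced free group C*-algebras.**

(1) `U` is a unital C*-algebra spanned by unitaries `π g` with Haagerup's inequality, `α` maps `π g`
to a unimodular multiple of `π (φ g)`, `φ` is injective, and along every orbit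
`(ℓ(φ^n g) + 1)^k = o(n^{1/2})`.

(2) `U` is a copy of the reduced C*-algebra of the free group on an arbitrary set `S` and
`α` maps each generator `s` to a unimodular multiple of the generator `e s`, `e` injective. -/
theorem result (U : Type) [CStarAlgebra U] (α : U →⋆ₐ[ℂ] U) :
    (∀ (G : Type) (π : G → U) (φ : G → G) (ℓ : G → ℕ) (C : ℝ) (k : ℕ), 0 ≤ C →
      (∀ g, π g ∈ unitary U) → Spans π → RapidDecay π ℓ C k → Function.Injective φ →
      Carries α π φ → SlowOrbits φ ℓ k → MobiusDisjoint α) ∧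
    (∀ (S : Type) (π : FreeGroup S →* unitary U) (e : S → S), IsReducedFree U S π →
      Function.Injective e →
      (∀ s, ∃ z : ℂ, ‖z‖ = 1 ∧ α (π (FreeGroup.of s)) = z • (π (FreeGroup.of (e s)) : U)) →
      MobiusDisjoint α) := by
  have hAP : APCase := AP21.taskAP
  have hQ : ∀ A, QM A := qm_all Pool.Agent.H431R3.NCM.taskKBSZ Pool.Agent.H201R3.NCM.taskWeyl
    Pool.Agent.H183R3.NCMRat.taskRat
  refine ⟨?_, ?_⟩
  · intro G π φ ℓ C k hC hu hspan hRD hφ hα hslow
    exact mobiusDisjoint_of (main_rd hAP hQ α π hu hspan φ hφ hα ℓ C hC k hRD hslow)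
  · rintro S π e ⟨hn, hspan⟩ he hα
    exact mobiusDisjoint_of (main_free' hAP hQ α S π
      (fun f => (hn f).2 ⟨norm_nonneg _, convBound_lam f⟩) hspan e he hα)

end Pool.Agent.Results.MP_7a8f48_an.FreeGroupShifts
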