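import Pool.Agent.Helper188.NCM.Torus
import Pool.Agent.Helper188.NCM.QMAll
import Pool.Agent.Helper188.NCM.AP_helper21
import Pool.Agent.H183R3.NCMRat
import Pool.Agent.H201R3.NCM.Weyl
import Pool.Agent.H431R3.NCM.KBSZ

set_option autoImplicit false

open Filter Topology

namespace Pool.Agent.Results.MP_7a8f48_an.NoncommutativeTori

/-- Möbius disjointness of a unital `*`-endomorphism, in norm and for every bounded functional. -/
def MobiusDisjoint {U : Type} [CStarAlgebra U] (α : U →⋆ₐ[ℂ] U) : Prop :=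
  ∀ x : U,
    Tendsto (fun N : ℕ => (1 / (N : ℝ)) *
      ‖∑ n ∈ Finset.Icc 1 N, ((ArithmeticFunction.moebius n : ℤ) : ℂ) • (α^[n]) x‖) atTop (𝓝 0) ∧
    ∀ ρ : U →L[ℂ] ℂ, Tendsto (fun N : ℕ => (1 / (N : ℂ)) *
      ∑ n ∈ Finset.Icc 1 N, ((ArithmeticFunction.moebius n : ℤ) : ℂ) * ρ ((α^[n]) x)) atTop (𝓝 0)

open Pool.Agent.Helper188.NCM

theorem mobiusDisjoint_of {U : Type} [CStarAlgebra U] {α : U →⋆ₐ[ℂ] U} (h : ∀ x, PP α x) :
    MobiusDisjoint α := by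
  intro x
  have h1 := (h x).tendsto
  refine ⟨h1, fun ρ => ?_⟩
  have h2 : Tendsto (fun N : ℕ => ‖ρ‖ * ((1 / (N : ℝ)) *
      ‖∑ n ∈ Finset.Icc 1 N, mob n • (α^[n]) x‖)) atTop (𝓝 0) := by
    simpa using h1.const_mul ‖ρ‖
  refine squeeze_zero_norm (fun N => ?_) h2
  have e : ∑ n ∈ Finset.Icc 1 N, ((ArithmeticFunction.moebius n : ℤ) : ℂ) * ρ ((α^[n]) x)
      = ρ (∑ n ∈ Finset.Icc 1 N, mob n • (α^[n]) x) := by
    rw [map_sum]
    exact Finset.sum_congr rfl fun n _ => by rw [map_smul, smul_eq_mul]; rfl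
  rw [e, norm_mul, norm_div, norm_one, Complex.norm_natCast]
  calc 1 / (N : ℝ) * ‖ρ (∑ n ∈ Finset.Icc 1 N, mob n • (α^[n]) x)‖
      ≤ 1 / (N : ℝ) * (‖ρ‖ * ‖∑ n ∈ Finset.Icc 1 N, mob n • (α^[n]) x‖) := by
        gcongr
        exact ρ.le_opNorm _
    _ = _ := by ring

/-- **Möbius disjointness of zero entropy affine automorphisms of noncommutative tori.**

(1) `U` is a unital C*-algebra spanned by a projective unitary representation `π` of a group `G`,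
and `α` maps `π g` to a multiple of `π (φ g)`, where `φ^m` fixes `g⁻¹ φ^m(g)` for all `g`.

(2) `U` is generated by two unitaries with `v u = q u v`, and `α` maps `u`, `v` to multiples of the
monomials given by the columns of an integral matrix with all eigenvalues on the unit circle. -/
theorem result (U : Type) [CStarAlgebra U] (α : U →⋆ₐ[ℂ] U) :
    (∀ (G : Type) [Group G] (π : G → unitary U) (φ : G → G) (m : ℕ), 0 < m →
      (∀ g h, ∃ c : ℂ, ‖c‖ = 1 ∧ (π (g * h) : U) = c • ((π g : U) * (π h : U))) →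
      (Submodule.span ℂ (Set.range fun g => (π g : U))).topologicalClosure = ⊤ →
      (∀ g, ∃ c : ℂ, ‖c‖ = 1 ∧ α (π g) = c • (π (φ g) : U)) →
      (∀ g, φ^[m] (g⁻¹ * φ^[m] g) = g⁻¹ * φ^[m] g) →
      MobiusDisjoint α) ∧
    (∀ (u v : unitary U) (q z₁ z₂ : ℂ) (M : Matrix (Fin 2) (Fin 2) ℤ),
      ‖q‖ = 1 → ‖z₁‖ = 1 → ‖z₂‖ = 1 →
      (v : U) * (u : U) = q • ((u : U) * (v : U)) →
      (StarAlgebra.adjoin ℂ {(u : U), (v : U)}).topologicalClosure = ⊤ →
      ((M.det = 1 ∧ |M.trace| ≤ 2) ∨ (M.det = -1 ∧ M.trace = 0)) →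
      α u = z₁ • ((u ^ M 0 0 * v ^ M 1 0 : unitary U) : U) →
      α v = z₂ • ((u ^ M 0 1 * v ^ M 1 1 : unitary U) : U) →
      MobiusDisjoint α) := by
  have hAP : APCase := AP21.taskAP
  have hQ : ∀ A, QM A := qm_all Pool.Agent.H431R3.NCM.taskKBSZ Pool.Agent.H201R3.NCM.taskWeyl
    Pool.Agent.H183R3.NCMRat.taskRat
  refine ⟨?_, ?_⟩
  · intro G _ π φ m hm hπ hspan hα hφ
    exact mobiusDisjoint_of (main_group hAP hQ α (fun g => (π g : U)) (fun g => (π g).2) hπ hspan φ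
      hα m hm hφ)
  · intro u v q z₁ z₂ M hq hz₁ hz₂ huv hgen hM hu hv
    exact mobiusDisjoint_of (main_torus hAP hQ u v q hq huv hgen α M hM z₁ z₂ hz₁ hz₂ hu hv)

end Pool.Agent.Results.MP_7a8f48_an.NoncommutativeTori
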