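import Pool.Agent.Helper188.NCM.Cuntz
import Pool.Agent.H398R3.NCM.PD
import Pool.Agent.H399R6.HS

set_option autoImplicit false

open Filter Topology

namespace Pool.Agent.Results.MP_7a8f48_an.QuasiFree

/-- Möbius disjointness of a unital `*`-endomorphism, in norm and for every bounded functional. -/
def MobiusDisjoint {U : Type} [CStarAlgebra U] (α : U →⋆ₐ[ℂ] U) : Prop :=
  ∀ x : U,
    Tendsto (fun N : ℕ => (1 / (N : ℝ)) *
      ‖∑ n ∈ Finset.Icc 1 N, ((ArithmeticFunction.moebius n : ℤ) : ℂ) • (α^[n]) x‖) atTop (𝓝 0) ∧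
    ∀ ρ : U →L[ℂ] ℂ, Tendsto (fun N : ℕ => (1 / (N : ℂ)) *
      ∑ n ∈ Finset.Icc 1 N, ((ArithmeticFunction.moebius n : ℤ) : ℂ) * ρ ((α^[n]) x)) atTop (𝓝 0)

open Pool.Agent.Helper188.NCM

theorem mobiusDisjoint_of {U : Type} [CStarAlgebra U] {α : U →⋆ₐ[ℂ] U} (h : ∀ x, PP α x) :
    MobiusDisjoint α := by
  intro x
  have h1 := (h x).tendsto
  refine ⟨h1, fun ρ => ?_⟩
  have h2 : Tendsto (fun N : ℕ => ‖ρ‖ * ((1 / (N : ℝ)) *
      ‖∑ n ∈ Finset.Icc 1 N, mob n • (α^[n]) x‖)) atTop (𝓝 0) := by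
    simpa using h1.const_mul ‖ρ‖
  refine squeeze_zero_norm (fun N => ?_) h2
  have e : ∑ n ∈ Finset.Icc 1 N, ((ArithmeticFunction.moebius n : ℤ) : ℂ) * ρ ((α^[n]) x)
      = ρ (∑ n ∈ Finset.Icc 1 N, mob n • (α^[n]) x) := by
    rw [map_sum]
    exact Finset.sum_congr rfl fun n _ => by rw [map_smul, smul_eq_mul]; rfl
  rw [e, norm_mul, norm_div, norm_one, Complex.norm_natCast]
  calc 1 / (N : ℝ) * ‖ρ (∑ n ∈ Finset.Icc 1 N, mob n • (α^[n]) x)‖
      ≤ 1 / (N : ℝ) * (‖ρ‖ * ‖∑ n ∈ Finset.Icc 1 N, mob n • (α^[n]) x‖) := by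
        gcongr
        exact ρ.le_opNorm _
    _ = _ := by ring

theorem PP_embed {U W : Type} [CStarAlgebra U] [CStarAlgebra W] {α : U →⋆ₐ[ℂ] U}
    (h : ∀ x, PP α x) (β : W →⋆ₐ[ℂ] W) (ι : W →⋆ₐ[ℂ] U) (hι : Function.Injective ι)
    (hβ : ∀ w, ι (β w) = α (ι w)) : ∀ w, PP β w := by
  intro w ε hε
  obtain ⟨N0, h0⟩ := h (ι w) ε hε
  refine ⟨N0, fun N hN => le_trans (le_of_eq ?_) (h0 N hN)⟩
  have hn : ∀ n : ℕ, ι ((β^[n]) w) = (α^[n]) (ι w) := by
    intro n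
    induction n with
    | zero => rfl
    | succ n ih => rw [Function.iterate_succ_apply', Function.iterate_succ_apply', hβ, ih]
  rw [← NonUnitalStarAlgHom.norm_map ι hι, map_sum]
  congr 1
  exact Finset.sum_congr rfl fun n _ => by rw [map_smul, hn]

/-- **Möbius disjointness of quasi-free endomorphisms of Cuntz and Toeplitz-Cuntz algebras, and of
their crossed products.**

`U` is a unital C*-algebra generated by the image of a linear map `s` on a complex inner product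
space `H` (of any dimension) with `s(η)* s(ξ) = ⟨η, ξ⟩ 1`, together with a group `G` of unitaries
with `g s(H) g* ⊆ s(H)`.  `α` is a unital endomorphism with `α(s(H)) ⊆ s(H)` which multiplies
each `g ∈ G` by a scalar of modulus one.  Then `α`, and each restriction of `α` to an invariant
C*-subalgebra, is Möbius disjoint, in norm. -/
theorem result (U H : Type) [CStarAlgebra U] [NormedAddCommGroup H] [InnerProductSpace ℂ H]
    (s : H →ₗ[ℂ] U) (hs : ∀ η ξ : H, star (s η) * s ξ = (inner ℂ η ξ : ℂ) • (1 : U))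
    (G : Subgroup (unitary U)) (hG : ∀ g ∈ G, ∀ ξ, ∃ ζ, (g : U) * s ξ * star (g : U) = s ζ)
    (hgen : (StarAlgebra.adjoin ℂ
      (Set.range s ∪ {x : U | ∃ g ∈ G, x = (g : U)})).topologicalClosure = ⊤)
    (α : U →⋆ₐ[ℂ] U) (hα : ∀ ξ, ∃ ζ, α (s ξ) = s ζ)
    (hαG : ∀ g ∈ G, ∃ c : ℂ, ‖c‖ = 1 ∧ α (g : U) = c • (g : U)) :
    MobiusDisjoint α ∧
    ∀ (W : Type) [CStarAlgebra W] (β : W →⋆ₐ[ℂ] W) (ι : W →⋆ₐ[ℂ] U), Function.Injective ι →
      (∀ w, ι (β w) = α (ι w)) → MobiusDisjoint β := by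
  have h := main_cuntz Pool.Agent.H398R3.NCM.taskPD Pool.Agent.H399R6.HS.taskHS s hs G hG hgen α hα hαG
  exact ⟨mobiusDisjoint_of h, fun W _ β ι hι hβ => mobiusDisjoint_of (PP_embed h β ι hι hβ)⟩

end Pool.Agent.Results.MP_7a8f48_an.QuasiFree
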